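import Pool.Agent.helper94.PL.Spec

set_option autoImplicit false

open Complex Metric Set Filter Topology MeasureTheory MPS
open Pool.Agent.helper16.Multibrot

noncomputable section

namespace PLY

lemma MBD_pow_tendsto {n : ℕ} (hn : 2 ≤ n) {y : ℝ} (hy : 2 ≤ y) :
    Tendsto (fun j : ℕ => 2 * y ^ (n ^ j)) atTop atTop := by
  have h1 : Tendsto (fun j : ℕ => n ^ j) atTop atTop :=
    tendsto_pow_atTop_atTop_of_one_lt (by omega)
  have h2 : Tendsto (fun j : ℕ => y ^ j) atTop atTop :=
    tendsto_pow_atTop_atTop_of_one_lt (by linarith)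
  exact Tendsto.const_mul_atTop (by norm_num) (h2.comp h1)

/-- **MBD**: the critical orbit is bounded by `4`. -/
theorem MBD (h : ESC_stmt) : MBD_stmt := by
  intro n c hn hc
  have hc' : ¬ Tendsto (fun k : ℕ => ‖(fun z : ℂ => z ^ n + c)^[k] 0‖) atTop atTop := hc
  have hc2 : ‖c‖ ≤ 2 := by
    have h1 := Pool.Agent.LeadMultibrot.norm_pow_le_two hn hc'
    by_contra h2
    push Not at h2
    have h3 : ‖c‖ ^ 1 ≤ ‖c‖ ^ (n - 1) :=
      pow_le_pow_right₀ (by linarith) (by omega)
    rw [pow_one] at h3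
    linarith
  have hesc : ∀ z : ℂ, 4 ≤ ‖z‖ → Tendsto (fun j : ℕ => ‖(fc n c)^[j] z‖) atTop atTop := by
    intro z hz
    exact tendsto_atTop_mono (fun j => h n c z j hn hc2 hz)
      (MBD_pow_tendsto hn (by linarith))
  refine ⟨hc2, ?_, ?_⟩
  · intro j
    by_contra hj
    push Not at hj
    have h1 := hesc _ hj
    apply hc'
    rw [← tendsto_add_atTop_iff_nat j]
    refine h1.congr (fun k => ?_)
    rw [← Function.iterate_add_apply]
    rfl
  · rintro z ⟨B, hB⟩
    by_contra hz
    push Not at hz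
    obtain ⟨j, hj⟩ := ((hesc z hz).eventually_gt_atTop B).exists
    exact absurd (hB j) (not_le.mpr hj)

end PLY
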