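import Pool.Agent.helper68.PL.SpecB

/-!
# Project pl: (MP_70a088_an), row pl:bVDX: the first violation exists
-/

set_option autoImplicit false

open Complex Metric Set Filter Topology MeasureTheory
open Pool.Agent.helper98.ILF
open WP (it)
open HY (UD T S hd UN RM)
open PM

noncomputable section

namespace PL

theorem VDX (hCNA : CNA_stmt) (hCNB : CNB_stmt) (hDPJ : DPJ_stmt) : BVD_stmt := by
  classical
  intro f R δ e₀ d₀ k₀ hST μ x hTP a ha ha1
  obtain ⟨b₀, hb₀, k₁, hk₁⟩ := hCNA f R δ e₀ d₀ k₀ hST μ x hTP a ha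
  have hDP := hDPJ f μ x hTP
  have hex : ∀ j ≥ k₁, ∃ s : ℕ, ∃ n ≥ j, ¬ LO f R x a n s := by
    intro j hj
    by_contra hcon
    push Not at hcon
    exact hCNB f R δ e₀ d₀ k₀ hST x hTP.mem hDP b₀ hb₀ j (hk₁ j hj fun s => hcon s j le_rfl)
  have hex2 : ∀ j : ℕ, ∃ n t : ℕ, j ≤ n ∧ (k₁ ≤ j → ¬ LO f R x a n t) ∧
      (k₁ ≤ j → ∀ n' ≥ j, ∀ v < t, LO f R x a n' v) := by
    intro j
    by_cases hj : k₁ ≤ j
    · have h1 := Nat.find_spec (hex j hj)
      obtain ⟨n, hn, hbad⟩ := h1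
      refine ⟨n, Nat.find (hex j hj), hn, fun _ => hbad, fun _ n' hn' v hv => ?_⟩
      have h2 := Nat.find_min (hex j hj) hv
      by_contra hcon
      exact h2 ⟨n', hn', hcon⟩
    · exact ⟨j, 0, le_rfl, fun h => absurd h hj, fun h => absurd h hj⟩
  choose n t h1 h2 h3 using hex2
  refine ⟨n, t, fun U hU => ?_⟩
  have hev : ∀ᶠ j in (U : Filter ℕ), k₁ ≤ j := hU (eventually_ge_atTop k₁)
  exact ⟨Eventually.of_forall h1, hev.mono h2, hev.mono h3⟩

end PL
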